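import Pool.Agent.Helper89.GW.Stmts

/-!
# Module HEXT: extension of the Hamiltonian on the isotopy
-/

set_option autoImplicit false

open scoped ContDiff Topology
open Set Filter

namespace GW

/-- the isotopy in space-time -/
noncomputable def hextPsi (β : ℝ → ℝ) (F : E → ℝ) (z : ℝ × E) : ℝ × E := (z.1, Phi β F z.1 z.2)

theorem hext_smooth {β : ℝ → ℝ} {F : E → ℝ} (hβ : ContDiff ℝ ∞ β) (hF : ContDiff ℝ ∞ F) :
    ContDiff ℝ ∞ (hextPsi β F) := by
  have hd : ContDiff ℝ ∞ (deriv β) := (contDiff_infty_iff_deriv.1 hβ).2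
  have hp : ∀ i : Fin 4, ContDiff ℝ ∞ (fun z : ℝ × E => z.2 i) := fun i =>
    (contDiff_apply ℝ ℝ i).comp contDiff_snd
  have hβ2 : ContDiff ℝ ∞ (fun z : ℝ × E => β (z.2 2)) := hβ.comp (hp 2)
  have hd2 : ContDiff ℝ ∞ (fun z : ℝ × E => deriv β (z.2 2)) := hd.comp (hp 2)
  have hF2 : ContDiff ℝ ∞ (fun z : ℝ × E => F z.2) := hF.comp contDiff_snd
  have hs : ContDiff ℝ ∞ (fun z : ℝ × E => z.1 - 1) := contDiff_fst.sub contDiff_const
  have hal : ContDiff ℝ ∞ (fun z : ℝ × E => al β z.1 (z.2 2)) := by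
    unfold al
    exact contDiff_const.add (hs.mul hβ2)
  unfold hextPsi
  refine contDiff_fst.prodMk ?_
  rw [contDiff_pi]
  intro i
  fin_cases i
  · exact hal.mul (hp 0)
  · exact hp 1
  · exact hp 2
  · exact (hal.mul (hp 3)).sub ((hs.mul hd2).mul hF2)

/-- `Phi` is affine in `s` -/
theorem hext_affine (β : ℝ → ℝ) (F : E → ℝ) (s : ℝ) (p : E) :
    Phi β F s p = p + (s - 1) • Vel β F p := by
  funext i
  fin_cases i <;> simp [Phi, Vel, al] <;> ring

theorem hext_fderiv {β : ℝ → ℝ} {F : E → ℝ} (hβ : ContDiff ℝ ∞ β) (hF : ContDiff ℝ ∞ F)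
    (s : ℝ) (p : E) (σ : ℝ) (w : E) :
    fderiv ℝ (hextPsi β F) (s, p) (σ, w) = (σ, σ • Vel β F p + fderiv ℝ (Phi β F s) p w) := by
  have hsm := hext_smooth hβ hF
  have hD : HasFDerivAt (hextPsi β F) (fderiv ℝ (hextPsi β F) (s, p)) (s, p) :=
    ((hsm.differentiable (by norm_num)).differentiableAt).hasFDerivAt
  -- in the direction of `p`
  have h1 : HasFDerivAt (fun q : E => hextPsi β F (s, q))
      ((fderiv ℝ (hextPsi β F) (s, p)).comp (ContinuousLinearMap.inr ℝ ℝ E)) p :=
    HasFDerivAt.comp (g := hextPsi β F) (f := fun q : E => (s, q)) p hD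
      (hasFDerivAt_prodMk_right s p)
  have h1' := h1.snd
  have h1'' : HasFDerivAt (Phi β F s) ((ContinuousLinearMap.snd ℝ ℝ E).comp
      ((fderiv ℝ (hextPsi β F) (s, p)).comp (ContinuousLinearMap.inr ℝ ℝ E))) p := h1'
  have h1f := h1.fst
  have h1c : HasFDerivAt (fun _ : E => s) (0 : E →L[ℝ] ℝ) p := hasFDerivAt_const s p
  have h1f' : HasFDerivAt (fun _ : E => s) ((ContinuousLinearMap.fst ℝ ℝ E).comp
      ((fderiv ℝ (hextPsi β F) (s, p)).comp (ContinuousLinearMap.inr ℝ ℝ E))) p := h1f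
  have e1 := congrArg (fun T : E →L[ℝ] ℝ => T w) (h1c.unique h1f')
  have e2 := congrArg (fun T : E →L[ℝ] E => T w) h1''.fderiv
  -- in the direction of `s`
  have h2 : HasFDerivAt (fun r : ℝ => hextPsi β F (r, p))
      ((fderiv ℝ (hextPsi β F) (s, p)).comp (ContinuousLinearMap.inl ℝ ℝ E)) s :=
    HasFDerivAt.comp (g := hextPsi β F) (f := fun r : ℝ => (r, p)) s hD
      (hasFDerivAt_prodMk_left s p)
  have h2d := h2.hasDerivAt
  have h3 : HasDerivAt (fun r : ℝ => hextPsi β F (r, p)) ((1 : ℝ), Vel β F p) s := by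
    have h4 : HasDerivAt (fun r : ℝ => p + (r - 1) • Vel β F p) (Vel β F p) s := by
      have h5 : HasDerivAt (fun r : ℝ => (r - 1) • Vel β F p) ((1 : ℝ) • Vel β F p) s :=
        ((hasDerivAt_id s).sub_const 1).smul_const (Vel β F p)
      rw [one_smul] at h5
      exact h5.const_add p
    have h6 : HasDerivAt (fun r : ℝ => (r, p + (r - 1) • Vel β F p)) ((1 : ℝ), Vel β F p) s :=
      (hasDerivAt_id s).prodMk h4
    have h7 : (fun r : ℝ => hextPsi β F (r, p)) = fun r : ℝ => (r, p + (r - 1) • Vel β F p) := by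
      funext r
      simp only [hextPsi]
      rw [hext_affine]
    rw [h7]
    exact h6
  have e3 := h2d.unique h3
  simp only [ContinuousLinearMap.comp_apply, ContinuousLinearMap.inl_apply] at e3
  simp only [ContinuousLinearMap.comp_apply, ContinuousLinearMap.inr_apply,
    ContinuousLinearMap.coe_fst', ContinuousLinearMap.coe_snd', ContinuousLinearMap.zero_apply]
    at e1 e2
  have e4 : ((σ, w) : ℝ × E) = σ • ((1 : ℝ), (0 : E)) + (0, w) := by simp
  rw [e4, map_add, map_smul, e3]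
  have e5 : fderiv ℝ (hextPsi β F) (s, p) (0, w) = (0, fderiv ℝ (Phi β F s) p w) := by
    apply Prod.ext
    · exact e1.symm
    · exact e2.symm
  rw [e5]
  simp

/-- `om a` as a continuous linear map -/
noncomputable def hextOm (a : E) : E →L[ℝ] ℝ :=
  a 0 • ContinuousLinearMap.proj (R := ℝ) (φ := fun _ : Fin 4 => ℝ) 1 -
    a 1 • ContinuousLinearMap.proj (R := ℝ) (φ := fun _ : Fin 4 => ℝ) 0 +
    a 2 • ContinuousLinearMap.proj (R := ℝ) (φ := fun _ : Fin 4 => ℝ) 3 -
    a 3 • ContinuousLinearMap.proj (R := ℝ) (φ := fun _ : Fin 4 => ℝ) 2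

theorem hextOm_apply (a u : E) : hextOm a u = om a u := by
  simp [hextOm, om]

theorem st_HEXT (hG : ST_GLUE) (hP : ST_PHI) : ST_HEXT := by
  intro L F β t₀ t₁ hS S hS1
  obtain ⟨hinj, himm, hham⟩ := hP L F β t₀ t₁ hS
  have hsm := hext_smooth hS.smβ hS.smF
  have hcont : Continuous (hextPsi β F) := hsm.continuous
  set K : Set (ℝ × E) := Icc 1 S ×ˢ L with hK
  have hKc : IsCompact K := isCompact_Icc.prod hS.cpt
  have hinjK : InjOn (hextPsi β F) K := by
    rintro ⟨s, p⟩ ⟨hs, hp⟩ ⟨s', p'⟩ ⟨hs', hp'⟩ h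
    simp only [hextPsi, Prod.mk.injEq] at h
    obtain ⟨h1, h2⟩ := h
    subst h1
    have h3 : p = p' := hinj s hs.1 hp hp' h2
    rw [h3]
  -- the derivative is injective at points of `K`
  have hDinj : ∀ z ∈ K, Function.Injective (fderiv ℝ (hextPsi β F) z) := by
    rintro ⟨s, p⟩ ⟨hs, hp⟩
    rw [injective_iff_map_eq_zero]
    rintro ⟨σ, w⟩ h
    rw [hext_fderiv hS.smβ hS.smF, Prod.mk_eq_zero] at h
    obtain ⟨h1, h2⟩ := h
    rw [h1, zero_smul, zero_add] at h2
    have h3 := (injective_iff_map_eq_zero _).1 (himm s hs.1 p hp) w h2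
    rw [h1, h3]
    rfl
  let inv : ℝ × E → ℝ × E := Function.invFunOn (hextPsi β F) K
  have hinv : ∀ z ∈ K, inv (hextPsi β F z) = z := fun z hz => hinjK.leftInvOn_invFunOn hz
  -- the open set where the derivative is invertible
  let R : Set (ℝ × E) := {z | ∃ e : (ℝ × E) ≃L[ℝ] (ℝ × E), (e : (ℝ × E) →L[ℝ] (ℝ × E)) =
    fderiv ℝ (hextPsi β F) z}
  have hRo : IsOpen R := by
    have h1 : IsOpen (range ((↑) : ((ℝ × E) ≃L[ℝ] (ℝ × E)) → ((ℝ × E) →L[ℝ] (ℝ × E)))) :=
      ContinuousLinearEquiv.isOpen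
    have h2 : Continuous (fderiv ℝ (hextPsi β F)) := hsm.continuous_fderiv (by norm_num)
    exact h1.preimage h2
  have hKR : ∀ z ∈ K, z ∈ R := by
    intro z hz
    refine ⟨ContinuousLinearEquiv.ofBijective (fderiv ℝ (hextPsi β F) z) ?_ ?_, ?_⟩
    · exact LinearMap.ker_eq_bot.2 (hDinj z hz)
    · exact LinearMap.range_eq_top.2 (LinearMap.injective_iff_surjective.1 (hDinj z hz))
    · ext <;> rfl
  have hDat : ∀ z, HasFDerivAt (hextPsi β F) (fderiv ℝ (hextPsi β F) z) z := fun z =>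
    ((hsm.differentiable (by norm_num)).differentiableAt).hasFDerivAt
  let G : E → ℝ := fun q => β (q 2) * F q
  have hGs : ContDiff ℝ ∞ G := (hS.smβ.comp (contDiff_apply ℝ ℝ 2)).mul hS.smF
  have key := hG (ℝ × E) (hextPsi β F '' K) (fun m => G (inv m).2)
    (fun m => (hextOm (Vel β F (inv m).2)).comp (ContinuousLinearMap.snd ℝ ℝ E))
    (hKc.image hcont) (by
      rintro n ⟨z₀, hz₀, rfl⟩
      obtain ⟨e₀, he₀⟩ := hKR z₀ hz₀
      have hD0 : HasFDerivAt (hextPsi β F) (e₀ : (ℝ × E) →L[ℝ] (ℝ × E)) z₀ := by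
        rw [he₀]; exact hDat z₀
      let f := hsm.contDiffAt.toOpenPartialHomeomorph (hextPsi β F) hD0 (by norm_num)
      have hfc : (f : ℝ × E → ℝ × E) = hextPsi β F := rfl
      have hz₀f : z₀ ∈ f.source :=
        hsm.contDiffAt.mem_toOpenPartialHomeomorph_source hD0 (by norm_num)
      -- the open set
      have hO1 : IsOpen (f.target ∩ f.symm ⁻¹' R) := f.symm.isOpen_inter_preimage hRo
      have hC : IsClosed (hextPsi β F '' (K \ f.source)) :=
        ((hKc.diff f.open_source).image hcont).isClosed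
      refine ⟨(f.target ∩ f.symm ⁻¹' R) ∩ (hextPsi β F '' (K \ f.source))ᶜ,
        hO1.inter hC.isOpen_compl, ⟨⟨?_, ?_⟩, ?_⟩, fun m => G (f.symm m).2, ?_, ?_⟩
      · have := f.map_source hz₀f
        rwa [hfc] at this
      · have h1 := f.left_inv hz₀f
        rw [hfc] at h1
        show f.symm (hextPsi β F z₀) ∈ R
        rw [h1]
        exact hKR z₀ hz₀
      · rintro ⟨z, ⟨hz, hzs⟩, hzz⟩
        have := hinjK hz hz₀ hzz
        rw [this] at hzs
        exact hzs hz₀f
      · intro m hm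
        obtain ⟨⟨hmt, hmR⟩, -⟩ := hm
        obtain ⟨e, he⟩ := hmR
        have h1 : ContDiffAt ℝ ∞ f.symm m := by
          refine f.contDiffAt_symm (f₀' := e) hmt ?_ ?_
          · rw [he]
            exact hDat (f.symm m)
          · exact hsm.contDiffAt
        exact ((hGs.contDiffAt.comp m h1.snd)).contDiffWithinAt
      · rintro m ⟨z, hz, rfl⟩ ⟨⟨hmt, hmR⟩, hmc⟩
        have hzs : z ∈ f.source := by
          by_contra hcon
          exact hmc ⟨z, ⟨hz, hcon⟩, rfl⟩
        have hfz : f.symm (hextPsi β F z) = z := by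
          have := f.left_inv hzs
          rwa [hfc] at this
        constructor
        · show G (f.symm (hextPsi β F z)).2 = G (inv (hextPsi β F z)).2
          rw [hfz, hinv z hz]
        · obtain ⟨e, he⟩ := hKR z hz
          have h1 : HasFDerivAt f.symm (e.symm : (ℝ × E) →L[ℝ] (ℝ × E)) (hextPsi β F z) := by
            refine f.hasFDerivAt_symm (f' := e) hmt ?_
            rw [hfz, he]
            exact hDat z
          have h2 : HasFDerivAt G (fderiv ℝ G z.2) (f.symm (hextPsi β F z)).2 := by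
            rw [hfz]
            exact ((hGs.differentiable (by norm_num)).differentiableAt).hasFDerivAt
          have h3 : HasFDerivAt (fun m => G (f.symm m).2) ((fderiv ℝ G z.2).comp
              ((ContinuousLinearMap.snd ℝ ℝ E).comp
                (e.symm : (ℝ × E) →L[ℝ] (ℝ × E)))) (hextPsi β F z) :=
            HasFDerivAt.comp (g := G) (f := fun m => (f.symm m).2) (hextPsi β F z) h2 h1.snd
          rw [h3.fderiv]
          simp only [hinv z hz]
          obtain ⟨s, p⟩ := z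
          apply ContinuousLinearMap.ext
          rintro ⟨σ, u⟩
          simp only [ContinuousLinearMap.comp_apply, ContinuousLinearMap.coe_snd', hextOm_apply]
          obtain ⟨⟨σ', w⟩, hw⟩ := e.surjective (σ, u)
          have h5 : e (σ', w) = (σ', σ' • Vel β F p + fderiv ℝ (Phi β F s) p w) := by
            rw [← hext_fderiv hS.smβ hS.smF, ← he]
            rfl
          have h6 : (e.symm : (ℝ × E) →L[ℝ] (ℝ × E)) (σ, u) = (σ', w) := by
            rw [← hw]
            exact e.symm_apply_apply (σ', w)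
          rw [h6]
          rw [h5, Prod.mk.injEq] at hw
          obtain ⟨h7, h8⟩ := hw
          have h9 := hham s p hz.2 w
          show fderiv ℝ G p w = om (Vel β F p) u
          have h10 : fderiv ℝ G p w = om (Vel β F p) (fderiv ℝ (Phi β F s) p w) := h9
          rw [h10, ← h8]
          simp only [om, Pi.add_apply, Pi.smul_apply, smul_eq_mul]
          ring)
  obtain ⟨H, hH1, hH2, hH3⟩ := key
  refine ⟨H, hH1, hH2, ?_⟩
  intro s hs p hp u
  have hz : ((s, p) : ℝ × E) ∈ K := ⟨hs, hp⟩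
  have h1 := (hH3 (hextPsi β F (s, p)) ⟨(s, p), hz, rfl⟩).2
  have h2 : hextPsi β F (s, p) = (s, Phi β F s p) := rfl
  rw [h2] at h1
  rw [h1]
  have h3 := hinv (s, p) hz
  rw [h2] at h3
  simp only [h3, ContinuousLinearMap.comp_apply, ContinuousLinearMap.coe_snd', hextOm_apply]

end GW
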